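import Pool.Agent.N929.EG.Stm4
import Pool.Agent.N278.EZ.Quo

/-!
# EG/LAW: the laws of functionals are regular to all orders

An adaptation of `Pool/Agent/N929/EZ/Law.lean` (square lattice, step 2) to a general system of
moves and a general rate function, as in `Pool/Agent/N364/EG/Fin.lean`.
-/

set_option autoImplicit false
set_option linter.unusedVariables false

namespace Pool.Agent.N394.EG

open Finset Filter
open Pool.Agent.N929.EG
open Pool.Agent.N929.EZ (Df)
open Pool.Agent.N364.EG (rate_small compar)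
open scoped Classical

theorem law_aux {α σ : Type} (Y : TS α σ) (μ : ℝ) (φ : ℕ → ℝ) (G : Gr Y μ φ) (K' : ℝ)
    (hK'0 : 0 ≤ K')
    (hK' : ∀ n : ℕ, 2 ≤ n → μ ^ n ≤ Real.exp (K' * φ n) * ((Y.K n).card : ℝ))
    (r : ℕ) (M₀ : ℝ) (hM₀ : 0 ≤ M₀) : ∃ C : ℝ, 0 < C ∧ ∃ N₁ : ℕ, ∀ n : ℕ,
    2 ≤ n → N₁ ≤ n → ∀ F : α → ℝ, (∀ w, |F w| ≤ 1) →
      (∀ L : Finset σ, Fam Y L → ∀ st fl, Fill Y L st fl → ∀ w, Em Y L w →
        Rp (Sl Y L w) (fun U => F (fl w U)) M₀) →
      |∑ i ∈ range (r + 1), (-1 : ℝ) ^ i * (r.choose i : ℝ) *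
        ((∑ w ∈ Y.K (n + Y.s * i), F w) / ((Y.K (n + Y.s * i)).card : ℝ))| ≤
        C * Real.sqrt (φ n / n) ^ r := by
  have hmain := s_aof α σ Y μ φ G
  have hμ1 := G.one
  have hφ := G.phi
  have hμ0 : 0 < μ := by linarith
  obtain ⟨D₁, hD₁1, hD₁⟩ := hφ.dbl
  choose A C hA hC hAC using hmain
  set A0 : ℝ := 1 + ∑ s ∈ range (r + 2), A s with hA0
  set C0 : ℝ := 1 + ∑ s ∈ range (r + 2), C s with hC0
  have hA0p : 1 ≤ A0 := by
    rw [hA0]; have := sum_nonneg (s := range (r + 2)) fun s _ => (hA s).le; linarith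
  have hC0p : 1 ≤ C0 := by
    rw [hC0]; have := sum_nonneg (s := range (r + 2)) fun s _ => (hC s).le; linarith
  have hAle : ∀ s, s ≤ r + 1 → A s ≤ A0 := fun s hs => by
    have := single_le_sum (f := A) (fun s _ => (hA s).le) (mem_range.2 (Nat.lt_succ_of_le hs))
    rw [hA0]; linarith
  have hCle : ∀ s, s ≤ r + 1 → C s ≤ C0 := fun s hs => by
    have := single_le_sum (f := C) (fun s _ => (hC s).le) (mem_range.2 (Nat.lt_succ_of_le hs))
    rw [hC0]; linarith
  have hφ0 : ∀ n : ℕ, 2 ≤ n → 0 < φ n := fun n hn =>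
    lt_of_lt_of_le (Real.log_pos (by exact_mod_cast hn)) (hφ.log n hn)
  have hcp : ∀ n : ℕ, 2 ≤ n → 0 < ((Y.K n).card : ℝ) := fun n hn => by
    have h1 := hK' n hn
    by_contra hcon
    push Not at hcon
    have h2 : 0 < μ ^ n := by positivity
    have h3 : 0 < Real.exp (K' * φ n) := Real.exp_pos _
    have h4 : Real.exp (K' * φ n) * ((Y.K n).card : ℝ) ≤ 0 :=
      mul_nonpos_of_nonneg_of_nonpos h3.le hcon
    linarith
  have hKD : 0 ≤ K' * D₁ := by positivity
  have hr0 : (0 : ℝ) ≤ r := Nat.cast_nonneg r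
  set A' : ℝ := A0 * (K' * D₁ + (r + 1) + D₁) with hA'
  have hA'4 : D₁ * A0 ≤ A' := by
    have h1 : 0 ≤ A0 * (K' * D₁ + (r + 1)) := by positivity
    have h2 : A' = A0 * (K' * D₁ + (r + 1)) + D₁ * A0 := by rw [hA']; ring
    linarith
  have hA'1 : 1 ≤ A' := by
    have h1 : 1 * 1 ≤ D₁ * A0 := mul_le_mul hD₁1 hA0p (by norm_num) (by linarith)
    linarith
  set q : ℝ := Real.sqrt A' with hq
  have hq0 : 0 < q := Real.sqrt_pos.2 (by linarith)
  have hq1 : 1 ≤ q := by rw [hq]; exact Real.one_le_sqrt.2 hA'1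
  have hqq : q ^ 2 = A' := Real.sq_sqrt (by linarith)
  obtain ⟨N0, hN0⟩ := rate_small hφ q (1 / (8 * C0)) hq0 (by positivity)
  obtain ⟨Cq, hCq0, hCq⟩ := Pool.Agent.N278.EZ.quo r (2 ^ r * (1 + 2 * C0) * (M₀ + 1))
    (by positivity)
  refine ⟨Cq * q ^ r, by positivity, N0 + Y.s * r + 3, ?_⟩
  intro n hn2 hnN F hF hrep
  have hφn : 0 < φ n := hφ0 n hn2
  have hn0 : (0 : ℝ) < n := by exact_mod_cast (by omega : 0 < n)
  set ε : ℝ := q * Real.sqrt (φ n / n) with hε
  have hsq0 : 0 < Real.sqrt (φ n / n) := Real.sqrt_pos.2 (by positivity)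
  have hε0 : 0 < ε := by positivity
  have hεC : ε ≤ 1 / (8 * C0) := hN0 n (by omega)
  have hε1 : ε ≤ 1 := by
    refine hεC.trans ?_
    rw [div_le_one (by positivity)]
    linarith
  have hεn : ε ^ 2 * n = A' * φ n := by
    rw [hε, mul_pow, hqq, Real.sq_sqrt (by positivity)]
    field_simp
  -- the lower bound for powers of `ε`
  have hεlow : ∀ s, s ≤ r + 1 → Real.exp (-((r + 1) * φ n)) ≤ ε ^ s := by
    intro s hs
    have h1 : (1 : ℝ) / n ≤ ε := by
      have h2 : (1 : ℝ) / n ≤ Real.sqrt (φ n / n) := by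
        refine Real.le_sqrt_of_sq_le ?_
        rw [div_pow, one_pow, div_le_div_iff₀ (by positivity) hn0]
        have h3 : (1 : ℝ) ≤ n := by exact_mod_cast (by omega : 1 ≤ n)
        have hL1 : 1 ≤ φ n := by
          have h3 : Real.exp 1 ≤ n := by
            have := Real.exp_one_lt_d9
            have h3 : (3 : ℝ) ≤ n := by exact_mod_cast (by omega : 3 ≤ n)
            linarith
          calc (1 : ℝ) = Real.log (Real.exp 1) := (Real.log_exp 1).symm
            _ ≤ Real.log n := Real.log_le_log (Real.exp_pos 1) h3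
            _ ≤ φ n := hφ.log n hn2
        nlinarith
      calc (1 : ℝ) / n ≤ Real.sqrt (φ n / n) := h2
        _ ≤ q * Real.sqrt (φ n / n) := le_mul_of_one_le_left hsq0.le hq1
    have h3 : Real.exp (-φ n) ≤ ε := by
      calc Real.exp (-φ n) ≤ Real.exp (-Real.log n) := by
            apply Real.exp_le_exp.2
            linarith [hφ.log n hn2]
        _ = 1 / n := by rw [Real.exp_neg, Real.exp_log hn0, ← one_div]
        _ ≤ ε := h1
    calc Real.exp (-((r + 1) * φ n)) = Real.exp (-φ n) ^ (r + 1) := by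
          rw [← Real.exp_nat_mul]
          congr 1
          push_cast
          ring
      _ ≤ ε ^ (r + 1) := pow_le_pow_left₀ (Real.exp_pos _).le h3 (r + 1)
      _ ≤ ε ^ s := pow_le_pow_of_le_one hε0.le hε1 hs
  have hφj : ∀ j, j ≤ r → φ (n + Y.s * j) ≤ D₁ * φ n := by
    intro j hj
    refine hD₁ n (n + Y.s * j) hn2 (Nat.le_add_right _ _) ?_
    have h1 : Y.s * j ≤ Y.s * r := Nat.mul_le_mul_left Y.s hj
    omega
  have hn2j : ∀ j, 2 ≤ n + Y.s * j := fun j => by omega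
  -- the main estimate, for a functional with representation norm `M₁`
  have hall : ∀ (H : α → ℝ) (M₁ : ℝ), 0 ≤ M₁ → (∀ w, |H w| ≤ 1) →
      (∀ L : Finset σ, Fam Y L → ∀ st fl, Fill Y L st fl → ∀ w, Em Y L w →
        Rp (Sl Y L w) (fun U => H (fl w U)) M₁) → ∀ s, s ≤ r + 1 → ∀ j, j ≤ r →
      |∑ i ∈ range (s + 1), (-1 : ℝ) ^ i * (s.choose i : ℝ) *
        ((∑ w ∈ Y.K (n + Y.s * j + Y.s * i), H w) / μ ^ (Y.s * i))| ≤
        C0 * (M₁ + 1) * ε ^ s * ((Y.K (n + Y.s * j)).card : ℝ) := by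
    intro H M₁ hM₁ hH hrH s hs j hj
    have hn1 : (n : ℝ) ≤ ((n + Y.s * j : ℕ) : ℝ) := by
      exact_mod_cast Nat.le_add_right _ _
    have hge : A' * φ n ≤ ε ^ 2 * ((n + Y.s * j : ℕ) : ℝ) := by
      rw [← hεn]; gcongr
    have hφnj : 0 < φ (n + Y.s * j) := hφ0 _ (hn2j j)
    have h1 : A s * φ (n + Y.s * j) ≤ ε ^ 2 * ((n + Y.s * j : ℕ) : ℝ) := by
      calc A s * φ (n + Y.s * j) ≤ A0 * (D₁ * φ n) :=
            mul_le_mul (hAle s hs) (hφj j hj) hφnj.le (by linarith)
        _ = D₁ * A0 * φ n := by ring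
        _ ≤ A' * φ n := by gcongr
        _ ≤ _ := hge
    obtain ⟨L, hL, hl⟩ := hAC s (n + Y.s * j) ε (hn2j j) hε0 hε1 h1
    obtain ⟨st, fl, hfl⟩ := s_bij α σ Y L hL
    have h2 := hl st fl hfl H (fun _ => M₁) 1 (by norm_num) (fun _ => hM₁)
      (fun i _ w _ => hH w) (fun w hw => hrH L hL st fl hfl w hw)
    refine h2.trans ?_
    have hTj := hcp (n + Y.s * j) (hn2j j)
    have h3 : Real.exp (-(ε ^ 2 * ((n + Y.s * j : ℕ) : ℝ) / A s)) * μ ^ (n + Y.s * j) ≤
        ε ^ s * ((Y.K (n + Y.s * j)).card : ℝ) := by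
      calc Real.exp (-(ε ^ 2 * ((n + Y.s * j : ℕ) : ℝ) / A s)) * μ ^ (n + Y.s * j)
          ≤ Real.exp (-((K' * D₁ + (r + 1) + D₁) * φ n)) *
            (Real.exp (K' * (D₁ * φ n)) * ((Y.K (n + Y.s * j)).card : ℝ)) := by
            refine mul_le_mul ?_ ?_ (by positivity) (Real.exp_pos _).le
            · apply Real.exp_le_exp.2
              apply neg_le_neg
              rw [le_div_iff₀ (hA s)]
              calc (K' * D₁ + (r + 1) + D₁) * φ n * A s ≤
                    (K' * D₁ + (r + 1) + D₁) * φ n * A0 := by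
                    apply mul_le_mul_of_nonneg_left (hAle s hs)
                    positivity
                _ = A' * φ n := by rw [hA']; ring
                _ ≤ _ := hge
            · refine (hK' _ (hn2j j)).trans ?_
              have h4 := hφj j hj
              gcongr
        _ = Real.exp (-(((r : ℝ) + 1 + D₁) * φ n)) * ((Y.K (n + Y.s * j)).card : ℝ) := by
            rw [← mul_assoc, ← Real.exp_add]
            congr 2
            ring
        _ ≤ Real.exp (-((r + 1) * φ n)) * ((Y.K (n + Y.s * j)).card : ℝ) := by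
            apply mul_le_mul_of_nonneg_right _ hTj.le
            apply Real.exp_le_exp.2
            apply neg_le_neg
            apply mul_le_mul_of_nonneg_right _ hφn.le
            linarith
        _ ≤ ε ^ s * ((Y.K (n + Y.s * j)).card : ℝ) :=
            mul_le_mul_of_nonneg_right (hεlow s hs) hTj.le
    have hCs := hCle s hs
    have hεs : 0 < ε ^ s := by positivity
    rw [sum_const, nsmul_eq_mul]
    calc C s * (ε ^ s * (((Y.K (n + Y.s * j)).card : ℝ) * M₁) + 1 *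
          (Real.exp (-(ε ^ 2 * ((n + Y.s * j : ℕ) : ℝ) / A s)) * μ ^ (n + Y.s * j)))
        ≤ C0 * (ε ^ s * (((Y.K (n + Y.s * j)).card : ℝ) * M₁) + 1 *
          (ε ^ s * ((Y.K (n + Y.s * j)).card : ℝ))) := by
          apply mul_le_mul hCs _ (by positivity) (by linarith)
          linarith
      _ = _ := by ring
  -- the two sequences
  set f : ℕ → ℝ := fun j => (∑ w ∈ Y.K (n + Y.s * j), F w) / μ ^ (Y.s * j) with hf
  set g : ℕ → ℝ := fun j => ((Y.K (n + Y.s * j)).card : ℝ) / μ ^ (Y.s * j) with hg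
  have hg0 : ∀ j, 0 < g j := fun j => by
    have := hcp (n + Y.s * j) (hn2j j)
    rw [hg]; positivity
  have hDg : ∀ s, s ≤ r + 1 → ∀ j, j ≤ r → |Df s g j| ≤ 2 * C0 * ε ^ s * g j := by
    intro s hs j hj
    have h0 := hall (fun _ => 1) 1 (by norm_num) (fun _ => by norm_num)
      (fun L _ st fl _ w _ => by simpa using Rp.const (E := Sl Y L w) 1) s hs j hj
    have h1 : Df s g j = (∑ i ∈ range (s + 1), (-1 : ℝ) ^ i * (s.choose i : ℝ) *
        ((∑ w ∈ Y.K (n + Y.s * j + Y.s * i), (1 : ℝ)) / μ ^ (Y.s * i))) / μ ^ (Y.s * j) := by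
      rw [Df, sum_div]
      refine sum_congr rfl fun i _ => ?_
      rw [hg]
      simp only [sum_const, nsmul_eq_mul, mul_one]
      rw [show n + Y.s * (j + i) = n + Y.s * j + Y.s * i by ring,
        show Y.s * (j + i) = Y.s * j + Y.s * i by ring, pow_add μ (Y.s * j) (Y.s * i)]
      field_simp
    rw [h1, abs_div, abs_of_pos (show 0 < μ ^ (Y.s * j) by positivity)]
    calc _ ≤ C0 * (1 + 1) * ε ^ s * ((Y.K (n + Y.s * j)).card : ℝ) / μ ^ (Y.s * j) := by
          gcongr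
      _ = 2 * C0 * ε ^ s * g j := by rw [hg]; ring
  have hcomp := compar g r hg0 (fun j hj => by
    have h1 := hDg 1 (by omega) j hj
    have h2 : Df 1 g j = g j - g (j + 1) := by
      rw [Df]
      simp [sum_range_succ]
      ring
    rw [h2] at h1
    refine h1.trans ?_
    rw [pow_one]
    have h3 : 2 * C0 * ε ≤ 1 / 4 := by
      calc 2 * C0 * ε ≤ 2 * C0 * (1 / (8 * C0)) := by gcongr
        _ = 1 / 4 := by field_simp; norm_num
    exact mul_le_mul_of_nonneg_right h3 (hg0 j).le)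
  have hpow : ∀ j, j ≤ r → (2 : ℝ) ^ j ≤ 2 ^ r := fun j hj =>
    pow_le_pow_right₀ (by norm_num) hj
  have h2r : (1 : ℝ) ≤ 2 ^ r := one_le_pow₀ (by norm_num)
  have hB1 : (1 : ℝ) + 2 * C0 ≤ (1 + 2 * C0) * (M₀ + 1) :=
    le_mul_of_one_le_right (by linarith) (by linarith)
  have hfin := hCq f g 0 (g 0) ε hε0 hε1 (hg0 0).le (fun j _ => by rw [zero_add]; exact hg0 j)
    (fun j hj => by
      rw [zero_add]
      calc g 0 ≤ 2 ^ j * g j := (hcomp j hj).1
        _ ≤ 2 ^ r * (1 + 2 * C0) * (M₀ + 1) * g j := by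
          have h3 := hpow j hj
          refine mul_le_mul_of_nonneg_right ?_ (hg0 j).le
          rw [mul_assoc]
          calc (2 : ℝ) ^ j ≤ 2 ^ r * 1 := by rw [mul_one]; exact h3
            _ ≤ 2 ^ r * ((1 + 2 * C0) * (M₀ + 1)) :=
              mul_le_mul_of_nonneg_left (by linarith) (by linarith))
    (fun s hs => by
      have h0 := hall F M₀ hM₀ hF hrep s (by omega) 0 (Nat.zero_le _)
      have e1 : Df s f 0 = ∑ i ∈ range (s + 1), (-1 : ℝ) ^ i * (s.choose i : ℝ) *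
          ((∑ w ∈ Y.K (n + Y.s * 0 + Y.s * i), F w) / μ ^ (Y.s * i)) := by
        rw [Df]
        refine sum_congr rfl fun i _ => ?_
        simp only [hf, zero_add, mul_zero, add_zero]
      rw [e1]
      refine h0.trans ?_
      have e2 : g 0 = ((Y.K (n + Y.s * 0)).card : ℝ) := by simp [hg]
      rw [e2]
      have h5 : 0 < ε ^ s := by positivity
      have h6 : 0 ≤ ((Y.K (n + Y.s * 0)).card : ℝ) := Nat.cast_nonneg _
      have h7 : C0 * (M₀ + 1) ≤ 2 ^ r * (1 + 2 * C0) * (M₀ + 1) := by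
        have h8 : C0 ≤ 2 ^ r * (1 + 2 * C0) := by
          have h9 : 1 * (1 + 2 * C0) ≤ 2 ^ r * (1 + 2 * C0) :=
            mul_le_mul_of_nonneg_right h2r (by linarith)
          linarith
        gcongr
      gcongr)
    (fun s j hsj => by
      rw [zero_add]
      have h3 := hpow j (by omega)
      have h4 := (hcomp j (by omega)).2
      have hεs : 0 < ε ^ s := by positivity
      have h5 := hg0 0
      calc |Df s g j| ≤ 2 * C0 * ε ^ s * g j := hDg s (by omega) j (by omega)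
        _ ≤ 2 * C0 * ε ^ s * (2 ^ r * g 0) := by
          gcongr
          exact h4.trans (by gcongr)
        _ = 2 ^ r * (2 * C0) * (ε ^ s * g 0) := by ring
        _ ≤ 2 ^ r * ((1 + 2 * C0) * (M₀ + 1)) * (ε ^ s * g 0) := by
          have : 2 * C0 ≤ (1 + 2 * C0) * (M₀ + 1) := by linarith
          gcongr
        _ = 2 ^ r * (1 + 2 * C0) * (M₀ + 1) * ε ^ s * g 0 := by ring)
  have hSn : ∑ i ∈ range (r + 1), (-1 : ℝ) ^ i * (r.choose i : ℝ) *
        ((∑ w ∈ Y.K (n + Y.s * i), F w) / ((Y.K (n + Y.s * i)).card : ℝ)) =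
      Df r (fun j => f j / g j) 0 := by
    rw [Df]
    refine sum_congr rfl fun i _ => ?_
    have h1 := hcp (n + Y.s * i) (hn2j i)
    simp only [zero_add, hf, hg]
    rw [div_div_div_cancel_right₀ (by positivity)]
  rw [hSn]
  calc _ ≤ Cq * ε ^ r * (g 0 / g 0) := hfin
    _ = Cq * q ^ r * Real.sqrt (φ n / n) ^ r := by
      rw [div_self (hg0 0).ne', mul_one, hε, mul_pow]; ring

/-- the laws of functionals are regular to all orders -/
theorem law : S_LAW := by
  intro α σ Y μ φ G hlow r M₀ hM₀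
  obtain ⟨K', hK'0, hK'⟩ := hlow
  obtain ⟨C, hC, N₁, h⟩ := law_aux Y μ φ G K' hK'0 hK' r M₀ hM₀
  refine ⟨C + ∑ n ∈ range N₁, 2 ^ r / Real.sqrt (φ n / n) ^ r, ?_, ?_⟩
  · have : 0 ≤ ∑ n ∈ range N₁, 2 ^ r / Real.sqrt (φ n / n) ^ r :=
      sum_nonneg fun n _ => by positivity
    positivity
  intro n hn F hF hrep
  have hφn : 0 < φ n :=
    lt_of_lt_of_le (Real.log_pos (by exact_mod_cast hn)) (G.phi.log n hn)
  have hn0 : (0 : ℝ) < n := by exact_mod_cast (by omega : 0 < n)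
  have hsq0 : 0 < Real.sqrt (φ n / n) := Real.sqrt_pos.2 (by positivity)
  have hx0 : 0 < Real.sqrt (φ n / n) ^ r := by positivity
  rcases Nat.lt_or_ge n N₁ with h1 | h1
  · have h2 := single_le_sum (f := fun n : ℕ => (2 : ℝ) ^ r / Real.sqrt (φ n / n) ^ r)
      (fun n _ => by positivity) (mem_range.2 h1)
    have h3 : |∑ i ∈ range (r + 1), (-1 : ℝ) ^ i * (r.choose i : ℝ) *
        ((∑ w ∈ Y.K (n + Y.s * i), F w) / ((Y.K (n + Y.s * i)).card : ℝ))| ≤ 2 ^ r := by
      refine (abs_sum_le_sum_abs _ _).trans ?_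
      have h4 : ∑ i ∈ range (r + 1), (r.choose i : ℝ) = 2 ^ r := by
        exact_mod_cast Nat.sum_range_choose r
      rw [← h4]
      refine sum_le_sum (fun i hi => ?_)
      rw [abs_mul, abs_mul, abs_pow, abs_neg, abs_one, one_pow, one_mul, Nat.abs_cast]
      refine mul_le_of_le_one_right (Nat.cast_nonneg _) ?_
      rw [abs_div, Nat.abs_cast]
      refine div_le_one_of_le₀ ?_ (Nat.cast_nonneg _)
      refine (abs_sum_le_sum_abs _ _).trans ?_
      calc ∑ w ∈ Y.K (n + Y.s * i), |F w| ≤ ∑ w ∈ Y.K (n + Y.s * i), 1 :=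
            sum_le_sum fun w _ => hF w
        _ = _ := by simp
    refine h3.trans ?_
    have h5 : (2 : ℝ) ^ r = 2 ^ r / Real.sqrt (φ n / n) ^ r * Real.sqrt (φ n / n) ^ r := by
      field_simp
    refine h5.le.trans (mul_le_mul_of_nonneg_right (h2.trans ?_) hx0.le)
    linarith
  · refine (h n hn h1 F hF hrep).trans ?_
    refine mul_le_mul_of_nonneg_right ?_ hx0.le
    have : 0 ≤ ∑ n ∈ range N₁, 2 ^ r / Real.sqrt (φ n / n) ^ r :=
      sum_nonneg fun n _ => by positivity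
    linarith

end Pool.Agent.N394.EG
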